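import Pool.Agent.Helper21.RT.Final

/-!
# MP_b79ae6_an, Q1: a robust heterodimensional tangency of codimension two in dimension five

There is a `C^∞` diffeomorphism of `ℝ⁵` with a `C²`-robust heterodimensional tangency with
`c_T = 2` and `k_T = 1`.  So the answer to Q1 is yes.

The definitions `E`, `maxInv`, `IsTransitiveOn`, `IsHyperbolicSet`, `IsBasic`, `IsUnstableDisc`,
`IsStableDisc`, `C2Close`, `IsConjClose` are in `Pool.Agent.Helper21.RT.Defs`.
-/

open Set Filter Topology
open scoped ContDiff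
open Pool.Agent.Helper21.RT

namespace Pool.Agent.Results.MP_b79ae6_an.RobustCodimTwo

/-- The unstable manifold of `P` (of dimension `m`) and the stable manifold of `R` (of dimension `n`)
contain `C¹` immersed discs through `Y` of full dimension, and for their tangent spaces `A` and `B` at `Y`
one has `k_T = m + n - 5` and `c_T = d_T - k_T` with `d_T = dim (A ∩ B)`. -/
def TangencyAt (g : Equiv.Perm E) (P R Y : E) (m n : ℕ) (cT kT : ℤ) : Prop :=
  ∃ (ψ : (Fin m → ℝ) → E) (φ : (Fin n → ℝ) → E) (A B : Submodule ℝ E),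
    IsUnstableDisc g P Y ψ A ∧ IsStableDisc g R Y φ B ∧
    kT = (m : ℤ) + n - 5 ∧ cT = (Module.finrank ℝ ↥(A ⊓ B) : ℤ) - kT

/-- `f` has a `C²`-robust tangency of codimension `cT` and signed co-index `kT` between the unstable
manifolds of a transitive hyperbolic set of stable index `a` (isolated by `V`) and the stable manifolds
of a transitive hyperbolic set of stable index `b` (isolated by `W`). The sets for `g` are the maximal
invariant sets in `V` and `W`; they are the hyperbolic continuations of those of `f`: the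
conjugacies are as close to the identity as we like if `g` is close enough to `f`. -/
def HasRobustTangency (f : Equiv.Perm E) (a b : ℕ) (cT kT : ℤ) : Prop :=
  ∃ V W : Set E, IsCompact V ∧ IsCompact W ∧ Disjoint V W ∧ ∀ δ : ℝ, 0 < δ →
    ∃ (K : Set E) (ε : ℝ), IsCompact K ∧ 0 < ε ∧
      ∀ g : Equiv.Perm E, ContDiff ℝ 2 g → ContDiff ℝ 2 g.symm → C2Close K ε g f →
        IsBasic g V a ∧ IsBasic g W b ∧
        IsConjClose f g (maxInv f V) (maxInv g V) δ ∧ IsConjClose f g (maxInv f W) (maxInv g W) δ ∧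
        ∃ P ∈ maxInv g V, ∃ R ∈ maxInv g W, ∃ Y : E, TangencyAt g P R Y (5 - a) b cT kT

theorem result : ∃ f : Equiv.Perm E, ContDiff ℝ ∞ f ∧ ContDiff ℝ ∞ f.symm ∧
    HasRobustTangency f 2 3 2 1 := by
  obtain ⟨f, hf, hf', V, W, hV, hW, hVW, h⟩ := robust
  refine ⟨f, hf, hf', V, W, hV, hW, hVW, fun δ hδ => ?_⟩
  obtain ⟨K, ε, hK, hε, h⟩ := h δ hδ
  refine ⟨K, ε, hK, hε, fun g hg hg' hc => ?_⟩
  obtain ⟨h1, h2, h3, h4, P, R, Y, ψ, φ, A, hP, hR, hu, hs⟩ := h g hg hg' hc
  refine ⟨h1, h2, h3, h4, P, hP, R, hR, Y, ψ, φ, A, A, hu, hs, by norm_num, ?_⟩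
  obtain ⟨-, r, -, -, hinj, hA, -⟩ := hu
  have h5 : Module.finrank ℝ ↥A = 3 := by
    rw [← hA, LinearMap.finrank_range_of_inj hinj]; simp
  rw [inf_idem, h5]; norm_num

end Pool.Agent.Results.MP_b79ae6_an.RobustCodimTwo
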